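import Pool.Agent.Helper66_PP.StmtsLQ

/-!
# Squad PP, part LQ: module LQR (transport of ranks along an isomorphism of fields)
-/

set_option autoImplicit false

open scoped BigOperators

noncomputable section

namespace Pool.Agent.PP.H60L

open Pool.Agent.Helper51_AWC Pool.Agent.Helper79_WRA

variable {F E : Type} [Field F] [Field E] {H : Type} [Group H]

theorem actF_comp [Finite H] (e : F ≃+* E) (a f : H → F) (x : H) :
    actF (fun t => e (a t)) (fun t => e (f t)) x = e (actF a f x) := by
  have := Fintype.ofFinite H
  unfold actF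
  rw [finsum_eq_sum_of_fintype, finsum_eq_sum_of_fintype, map_sum]
  exact Finset.sum_congr rfl fun t _ => (map_mul e _ _).symm

theorem mulF_comp [Finite H] (e : F ≃+* E) (a f : H → F) (x : H) :
    mulF (fun t => e (a t)) (fun t => e (f t)) x = e (mulF a f x) := by
  have := Fintype.ofFinite H
  unfold mulF
  rw [finsum_eq_sum_of_fintype, finsum_eq_sum_of_fintype, map_sum]
  exact Finset.sum_congr rfl fun t _ => (map_mul e _ _).symm

theorem isIdem_comp [Finite H] (e : F ≃+* E) {a : H → F} (ha : IsIdem a) :
    IsIdem (fun t => e (a t)) := by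
  refine ⟨fun x y => congrArg e (ha.1 x y), ?_⟩
  funext x
  rw [mulF_comp, ha.2]

theorem rk_comp [Finite H] (e : F ≃+* E) (a : H → F) (V : Submodule F (H → F))
    (V' : Submodule E (H → E)) (hV : ∀ f : H → F, f ∈ V ↔ (fun t => e (f t)) ∈ V') :
    rk (fun t => e (a t)) V' = rk a V := by
  let j : V.map (actL a) ≃+ V'.map (actL (fun t => e (a t))) :=
    { toFun := fun f => ⟨fun t => e (f.1 t), by
        obtain ⟨g, hg, hgf⟩ := f.2
        refine ⟨fun t => e (g t), (hV g).1 hg, ?_⟩
        rw [← hgf]
        funext x
        exact actF_comp e a g x⟩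
      invFun := fun f => ⟨fun t => e.symm (f.1 t), by
        obtain ⟨g, hg, hgf⟩ := f.2
        refine ⟨fun t => e.symm (g t), (hV _).2 ?_, ?_⟩
        · have : (fun t => e (e.symm (g t))) = g := by
            funext t; exact e.apply_symm_apply _
          rw [this]
          exact hg
        · rw [← hgf]
          funext x
          apply e.injective
          rw [e.apply_symm_apply]
          have h1 : e (actF a (fun t => e.symm (g t)) x) =
            actF (fun t => e (a t)) (fun t => e (e.symm (g t))) x := (actF_comp e a _ x).symm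
          have h2 : (fun t => e (e.symm (g t))) = g := by
            funext t; exact e.apply_symm_apply _
          rw [h2] at h1
          exact h1⟩
      left_inv := fun f => Subtype.ext (funext fun t => e.symm_apply_apply _)
      right_inv := fun f => Subtype.ext (funext fun t => e.apply_symm_apply _)
      map_add' := fun f g => Subtype.ext (funext fun t => map_add e _ _) }
  unfold rk
  have h := rank_eq_of_equiv_equiv e j e.bijective (fun r m =>
    Subtype.ext (funext fun t => map_mul e _ _))
  unfold Module.finrank
  rw [h]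

theorem mem_cfs_comp (e : F ≃+* E) (f : H → F) :
    f ∈ cfs F H ↔ (fun t => e (f t)) ∈ cfs E H := by
  constructor
  · intro hf x y
    exact congrArg e (hf x y)
  · intro hf x y
    exact e.injective (hf x y)

theorem mem_cfsO_comp (e : F ≃+* E) (L : Subgroup H) (f : H → F) :
    f ∈ cfsO F L ↔ (fun t => e (f t)) ∈ cfsO E L := by
  constructor
  · rintro ⟨hf, h2⟩
    refine ⟨fun x y => congrArg e (hf x y), fun x hx => ?_⟩
    change e (f x) = 0
    rw [h2 x hx, map_zero]
  · rintro ⟨hf, h2⟩
    refine ⟨fun x y => e.injective (hf x y), fun x hx => ?_⟩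
    apply e.injective
    rw [map_zero]
    exact h2 x hx

/-- LQR. -/
theorem lqr (hlqm : LqmStmt) (hfis : FisStmt) : LqrStmt := by
  intro ℓ F _ hF G _ _ L hL hind a ha hsupp
  obtain ⟨M, hM, hℓ, ⟨e⟩⟩ := hfis ℓ F hF
  letI := Ideal.Quotient.field M
  have h := hlqm ℓ hF.prime M hℓ G L hL hind (fun t => e (a t)) (isIdem_comp e ha)
    (fun x hx => by rw [hsupp x hx, map_zero])
  rw [rk_comp e a (cfs F G) _ (mem_cfs_comp e), rk_comp e a (cfsO F L) _ (mem_cfsO_comp e L)] at h
  have h2 := rk_comp e (fun t : L => a t) (cfs F L) (cfs (FF M) L) (mem_cfs_comp e)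
  rw [h2] at h
  exact h

end Pool.Agent.PP.H60L
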