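import Pool.Agent.Helper98_PP.StmtsR2
import Pool.Agent.Helper20_PP.Fun
import Pool.Agent.Helper75_PP.Corner

/-!
Squad PP, part R2, module ORV: preliminaries (blocks and automorphisms of subgroups).
-/

open scoped BigOperators

noncomputable section

namespace Pool.Agent.PP.H60

open Pool.Agent.Helper51_AWC Pool.Agent.Helper79_WRA Pool.Agent.PP

/-! ### Extension by zero -/

section ext

variable {F Y : Type} [Field F] [Group Y] [Finite Y]

theorem ext0_supp (K : Subgroup Y) (a : K → F) : ∀ x, x ∉ K → ext0 K a x = 0 := by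
  intro x hx
  rw [ext0, dif_neg hx]

theorem ext0_mem (K : Subgroup Y) (a : K → F) {x : Y} (hx : x ∈ K) : ext0 K a x = a ⟨x, hx⟩ := by
  rw [ext0, dif_pos hx]

theorem ext0_mulF (K : Subgroup Y) (a b : K → F) :
    ext0 K (mulF a b) = mulF (ext0 K a) (ext0 K b) :=
  H75.ext0_mulF K a b

theorem ext0_zero (K : Subgroup Y) : ext0 K (0 : K → F) = 0 := by
  funext x
  by_cases hx : x ∈ K
  · rw [ext0_mem K _ hx]; rfl
  · rw [ext0_supp K _ x hx]; rfl

/-- transitivity of the extension by zero -/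
theorem ext0_trans {K H : Subgroup Y} (h : K ≤ H) (a : K → F) :
    ext0 H (ext0 (K.subgroupOf H) (fun x => a (Subgroup.subgroupOfEquivOfLe h x))) = ext0 K a := by
  funext x
  by_cases hx : x ∈ H
  · rw [ext0_mem H _ hx]
    by_cases hk : x ∈ K
    · rw [ext0_mem K _ hk, ext0_mem (K.subgroupOf H) _ (x := ⟨x, hx⟩) (by
        rw [Subgroup.mem_subgroupOf]; exact hk)]
      rfl
    · rw [ext0_supp K _ x hk, ext0_supp (K.subgroupOf H) _ ⟨x, hx⟩ (by
        rw [Subgroup.mem_subgroupOf]; exact hk)]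
  · rw [ext0_supp H _ x hx, ext0_supp K _ x (fun hk => hx (h hk))]

/-- class functions of a factor of a central product -/
theorem isCl_ext0 {K C : Subgroup Y} (hc : ∀ x ∈ K, ∀ y ∈ C, x * y = y * x) (ht : K ⊔ C = ⊤)
    {a : K → F} (ha : IsCl a) : IsCl (ext0 K a) := by
  have h1 : K ≤ stabF (ext0 K a) := by
    intro g hg x
    by_cases hx : x ∈ K
    · have hx' : g * x * g⁻¹ ∈ K := K.mul_mem (K.mul_mem hg hx) (K.inv_mem hg)
      rw [ext0_mem K _ hx, ext0_mem K _ hx']
      exact ha ⟨x, hx⟩ ⟨g, hg⟩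
    · have hx' : g * x * g⁻¹ ∉ K := by
        intro h
        apply hx
        have := K.mul_mem (K.mul_mem (K.inv_mem hg) h) hg
        have e : g⁻¹ * (g * x * g⁻¹) * g = x := by group
        rwa [e] at this
      rw [ext0_supp K _ _ hx, ext0_supp K _ _ hx']
  have h2 : C ≤ stabF (ext0 K a) := by
    intro g hg x
    by_cases hx : x ∈ K
    · have e : g * x * g⁻¹ = x := by rw [← hc x hx g hg]; group
      rw [e]
    · have hx' : g * x * g⁻¹ ∉ K := by
        intro h
        apply hx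
        have e : g * x * g⁻¹ = x := by
          have := hc _ h g hg
          have e2 : g * x * g⁻¹ * g = g * x := by group
          rw [e2] at this
          have e3 := mul_left_cancel this
          exact e3.symm
        rwa [e] at h
      rw [ext0_supp K _ _ hx, ext0_supp K _ _ hx']
  have h3 : stabF (ext0 K a) = ⊤ := by
    rw [eq_top_iff, ← ht]
    exact sup_le h1 h2
  intro x y
  have : y ∈ stabF (ext0 K a) := by rw [h3]; trivial
  exact this x

end ext

/-! ### Isomorphisms -/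

section iso

variable {F Y Y' : Type} [Field F] [Group Y] [Group Y'] [Finite Y] [Finite Y']

theorem mulF_comp (e : Y' ≃* Y) (a b : Y → F) :
    mulF (fun x => a (e x)) (fun x => b (e x)) = fun x => mulF a b (e x) := by
  funext x
  unfold mulF
  rw [← finsum_comp_equiv e.toEquiv]
  refine finsum_congr fun t => ?_
  show a (e t) * b (e (t⁻¹ * x)) = a (e t) * b ((e t)⁻¹ * e x)
  rw [map_mul, map_inv]

theorem isIdem_comp (e : Y' ≃* Y) {a : Y → F} (h : IsIdem a) : IsIdem (fun x => a (e x)) := by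
  refine ⟨fun x y => ?_, ?_⟩
  · show a (e (y * x * y⁻¹)) = a (e x)
    rw [map_mul, map_mul, map_inv]
    exact h.1 _ _
  · rw [mulF_comp, h.2]

theorem isBlk_comp (e : Y' ≃* Y) {a : Y → F} (h : IsBlk a) : IsBlk (fun x => a (e x)) := by
  refine ⟨isIdem_comp e h.1, ?_, ?_⟩
  · intro h0
    apply h.2.1
    funext x
    have := congrFun h0 (e.symm x)
    simpa using this
  · intro g hg
    have hg' := isIdem_comp e.symm hg
    have e1 : (fun x => (fun y => g (e.symm y)) (e x)) = g := by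
      funext x; simp
    rcases h.2.2 _ hg' with h1 | h1
    · left
      have := mulF_comp e a (fun y => g (e.symm y))
      rw [e1, h1] at this
      exact this
    · right
      have := mulF_comp e a (fun y => g (e.symm y))
      rw [e1, h1] at this
      exact this

end iso

/-! ### Restrictions of automorphisms -/

section res

variable {Y : Type} [Group Y]

theorem exists_res {K : Subgroup Y} {γ : MulAut Y} (h : K.map γ.toMonoidHom = K) :
    ∃ γ₁ : MulAut K, ResA K γ γ₁ :=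
  ⟨(MulEquiv.subgroupMap γ K).trans (MulEquiv.subgroupCongr h), fun _ => rfl⟩

theorem res_unique {K : Subgroup Y} {γ : MulAut Y} {γ₁ γ₂ : MulAut K} (h₁ : ResA K γ γ₁)
    (h₂ : ResA K γ γ₂) : γ₁ = γ₂ := by
  ext k
  rw [h₁, h₂]

theorem res_mul {K : Subgroup Y} {γ δ : MulAut Y} {γ₁ δ₁ : MulAut K} (h₁ : ResA K γ γ₁)
    (h₂ : ResA K δ δ₁) : ResA K (γ * δ) (γ₁ * δ₁) := by
  intro k
  rw [MulAut.mul_apply, MulAut.mul_apply, h₁, h₂]

theorem res_one {K : Subgroup Y} : ResA K (1 : MulAut Y) (1 : MulAut K) := fun _ => rfl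

theorem res_pow {K : Subgroup Y} {γ : MulAut Y} {γ₁ : MulAut K} (h₁ : ResA K γ γ₁) (n : ℕ) :
    ResA K (γ ^ n) (γ₁ ^ n) := by
  induction n with
  | zero => rw [pow_zero, pow_zero]; exact res_one
  | succ n ih => rw [pow_succ, pow_succ]; exact res_mul ih h₁

theorem mem_map_aut {K : Subgroup Y} {γ : MulAut Y} {x : Y} :
    x ∈ K.map γ.toMonoidHom ↔ ∃ y ∈ K, γ y = x := by
  rw [Subgroup.mem_map]
  rfl

theorem map_one_aut (K : Subgroup Y) : K.map (1 : MulAut Y).toMonoidHom = K := by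
  ext x
  rw [mem_map_aut]
  constructor
  · rintro ⟨y, hy, rfl⟩; exact hy
  · intro hx; exact ⟨x, hx, rfl⟩

theorem map_mul_aut (K : Subgroup Y) (γ δ : MulAut Y) :
    K.map (γ * δ).toMonoidHom = (K.map δ.toMonoidHom).map γ.toMonoidHom := by
  ext x
  rw [mem_map_aut, mem_map_aut]
  constructor
  · rintro ⟨y, hy, rfl⟩
    exact ⟨δ y, mem_map_aut.2 ⟨y, hy, rfl⟩, rfl⟩
  · rintro ⟨z, hz, rfl⟩
    obtain ⟨y, hy, rfl⟩ := mem_map_aut.1 hz
    exact ⟨y, hy, rfl⟩

theorem map_subgroupOf {H K K' : Subgroup Y} {γ : MulAut Y} {γ₁ : MulAut H} (hr : ResA H γ γ₁)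
    (hK : K ≤ H) (h : K.map γ.toMonoidHom = K') :
    (K.subgroupOf H).map γ₁.toMonoidHom = K'.subgroupOf H := by
  ext x
  rw [mem_map_aut, Subgroup.mem_subgroupOf, ← h, mem_map_aut]
  constructor
  · rintro ⟨y, hy, rfl⟩
    exact ⟨y, hy, (hr y).symm⟩
  · rintro ⟨y, hy, hyx⟩
    refine ⟨⟨y, hK hy⟩, hy, ?_⟩
    apply Subtype.ext
    rw [hr]
    exact hyx

/-- automorphisms of `K.subgroupOf H` and of `K` -/
theorem res_congr {H K : Subgroup Y} (hK : K ≤ H) {γ : MulAut Y} {γ₁ : MulAut H}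
    (hr : ResA H γ γ₁) {γ₂ : MulAut (K.subgroupOf H)} (hr2 : ResA (K.subgroupOf H) γ₁ γ₂) :
    ResA K γ (MulAut.congr (Subgroup.subgroupOfEquivOfLe hK) γ₂) := by
  intro k
  obtain ⟨x, rfl⟩ := (Subgroup.subgroupOfEquivOfLe hK).surjective k
  have h1 : MulAut.congr (Subgroup.subgroupOfEquivOfLe hK) γ₂ (Subgroup.subgroupOfEquivOfLe hK x) =
      Subgroup.subgroupOfEquivOfLe hK (γ₂ x) := by
    show Subgroup.subgroupOfEquivOfLe hK (γ₂ ((Subgroup.subgroupOfEquivOfLe hK).symm
      (Subgroup.subgroupOfEquivOfLe hK x))) = _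
    rw [MulEquiv.symm_apply_apply]
  rw [h1]
  show (((γ₂ x : K.subgroupOf H) : H) : Y) = γ (((x : K.subgroupOf H) : H) : Y)
  rw [hr2, hr]

end res

end Pool.Agent.PP.H60
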