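import Pool.Agent.Helper60_PP.OrvB

/-!
Squad PP, part R2, module ORV: a central product of components permuted by two automorphisms.
-/

open scoped BigOperators

noncomputable section

namespace Pool.Agent.PP.H60

open Pool.Agent.Helper51_AWC Pool.Agent.Helper79_WRA Pool.Agent.PP

/-- the block of `K` under the block of a larger subgroup -/
theorem blk_down {F Y : Type} [Field F] [Group Y] [Finite Y] {H K : Subgroup Y} (hKH : K ≤ H)
    {C : Subgroup H} (hc : ∀ x ∈ K.subgroupOf H, ∀ y ∈ C, x * y = y * x)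
    (ht : K.subgroupOf H ⊔ C = ⊤) {f : Y → F} (hf : f ≠ 0) {fH : H → F} (hH : BlkU H f fH)
    {f₁ : K → F} (h₁ : BlkU K f f₁) :
    BlkU (K.subgroupOf H) fH (fun x => f₁ (Subgroup.subgroupOfEquivOfLe hKH x)) := by
  have hb := isBlk_comp (Subgroup.subgroupOfEquivOfLe hKH) h₁.1
  refine ⟨hb, ?_⟩
  have hcl : IsCl (ext0 (K.subgroupOf H)
      (fun x => f₁ (Subgroup.subgroupOfEquivOfLe hKH x))) := isCl_ext0 hc ht hb.1.1
  have hid : IsIdem (ext0 (K.subgroupOf H)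
      (fun x => f₁ (Subgroup.subgroupOfEquivOfLe hKH x))) := by
    refine ⟨hcl, ?_⟩
    rw [← ext0_mulF, hb.1.2]
  rcases hH.1.2.2 _ hid with h | h
  · rw [H20.mulF_comm_of_cl hcl, h]
  · exfalso
    apply hf
    have h2 := congrArg (ext0 H) h
    rw [ext0_mulF, ext0_trans hKH, ext0_zero] at h2
    calc f = mulF (ext0 H fH) (mulF (ext0 K f₁) f) := by rw [h₁.2, hH.2]
      _ = mulF (mulF (ext0 H fH) (ext0 K f₁)) f := (H20.mulF_assoc _ _ _).symm
      _ = 0 := by rw [h2, H20.zero_mulF]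

/-- transport of the vanishing from `K` to `K.subgroupOf H` -/
theorem van_down (hiso : IsoStmt) {ℓ : ℕ} {F Y : Type} [Field F] [Group Y] [Finite Y]
    {H K : Subgroup Y} (hKH : K ≤ H) {A B : MulAut Y} {A₁ B₁ : MulAut H} (hA : ResA H A A₁)
    (hB : ResA H B B₁) {f₁ : K → F}
    (hv : ∀ α₁ β₁ : MulAut K, ResA K A α₁ → ResA K B β₁ → Van ℓ f₁ α₁ β₁)
    (α₂ β₂ : MulAut (K.subgroupOf H)) (h₂ : ResA (K.subgroupOf H) A₁ α₂)
    (h₃ : ResA (K.subgroupOf H) B₁ β₂) :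
    Van ℓ (fun x => f₁ (Subgroup.subgroupOfEquivOfLe hKH x)) α₂ β₂ := by
  refine hiso ℓ F K (K.subgroupOf H) (Subgroup.subgroupOfEquivOfLe hKH).symm f₁
    (MulAut.congr (Subgroup.subgroupOfEquivOfLe hKH) α₂)
    (MulAut.congr (Subgroup.subgroupOfEquivOfLe hKH) β₂) _ α₂ β₂ ?_ ?_ ?_ ?_
  · intro y
    show f₁ (Subgroup.subgroupOfEquivOfLe hKH ((Subgroup.subgroupOfEquivOfLe hKH).symm y)) = f₁ y
    rw [MulEquiv.apply_symm_apply]
  · intro y
    show α₂ ((Subgroup.subgroupOfEquivOfLe hKH).symm y) = (Subgroup.subgroupOfEquivOfLe hKH).symm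
      (Subgroup.subgroupOfEquivOfLe hKH (α₂ ((Subgroup.subgroupOfEquivOfLe hKH).symm y)))
    rw [MulEquiv.symm_apply_apply]
  · intro y
    show β₂ ((Subgroup.subgroupOfEquivOfLe hKH).symm y) = (Subgroup.subgroupOfEquivOfLe hKH).symm
      (Subgroup.subgroupOfEquivOfLe hKH (β₂ ((Subgroup.subgroupOfEquivOfLe hKH).symm y)))
    rw [MulEquiv.symm_apply_apply]
  · exact hv _ _ (res_congr hKH hA h₂) (res_congr hKH hB h₃)

/-- one orbit of the shift -/
theorem main_orbit (hcyv : CyvStmt) (hswa : SwaStmt) {ℓ : ℕ} [Fact ℓ.Prime] {F : Type} [Field F]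
    (hF : GoodF ℓ F) {Y : Type} [Group Y] [Finite Y] {K₀ : Subgroup Y} {f : Y → F}
    {α β : MulAut Y} {p : ℕ} {α₁ β₁ : MulAut K₀}
    (hc : ∀ i, 0 < i → i ≤ p → ∀ x ∈ K₀, ∀ y ∈ K₀, x * (α ^ i) y = (α ^ i) y * x)
    (ht : (⨆ i ∈ Finset.range (p + 1), K₀.map (α ^ i).toMonoidHom) = ⊤)
    (hz : ¬ ℓ ∣ Nat.card (Subgroup.center Y))
    (hs : ∀ i, i ≤ p → (K₀.map (α ^ i).toMonoidHom).map β.toMonoidHom =
      K₀.map (α ^ i).toMonoidHom)
    (hα : ResA K₀ (α ^ (p + 1)) α₁) (hβ : ResA K₀ β β₁) {f₁ : K₀ → F} (hb : BlkU K₀ f f₁)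
    (hv : Van ℓ f₁ α₁ β₁) : Van ℓ f α β :=
  hswa ℓ F hF Y f α β (hcyv ℓ F hF Y K₀ f β α p β₁ α₁ hc ht hz hs hβ hα f₁ hb
    (hswa ℓ F hF K₀ f₁ β₁ α₁ hv))

theorem nie_pow (hnie : NieStmt) {ℓ : ℕ} {F : Type} [Field F]
    (hF : GoodF ℓ F) {Y : Type} [Group Y] [Finite Y] {f : Y → F} {α β : MulAut Y} (k : ℕ)
    (hv : Van ℓ f α (β * α ^ k)) : Van ℓ f α β := by
  induction k with
  | zero => rw [pow_zero, mul_one] at hv; exact hv
  | succ k ih =>
    rw [pow_succ, ← mul_assoc] at hv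
    exact ih (hnie ℓ F hF Y f α (β * α ^ k) hv)

theorem map_pow_aut {Y : Type} [Group Y] {I : Type} {K : I → Subgroup Y} {γ : MulAut Y}
    {c : Equiv.Perm I} (h : ∀ i, (K i).map γ.toMonoidHom = K (c i)) (n : ℕ) (i : I) :
    (K i).map (γ ^ n).toMonoidHom = K ((c ^ n) i) := by
  induction n with
  | zero => rw [pow_zero, pow_zero, map_one_aut]; rfl
  | succ n ih => rw [pow_succ', pow_succ', map_mul_aut, ih, h]; rfl

section trans

variable {I : Type} [Finite I] {a b : Equiv.Perm I} {i : I}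

theorem exists_pow_fix (c : Equiv.Perm I) (i : I) : ∃ n, 0 < n ∧ (c ^ n) i = i :=
  ⟨orderOf c, orderOf_pos c, by rw [pow_orderOf_eq_one]; rfl⟩

theorem pow_apply_comm (hab : a * b = b * a) (x y : ℕ) (j : I) :
    (a ^ x) ((b ^ y) j) = (b ^ y) ((a ^ x) j) := by
  have h : a ^ x * b ^ y = b ^ y * a ^ x := (show Commute a b from hab).pow_pow x y
  exact congrFun (congrArg (fun f : Equiv.Perm I => (f : I → I)) h) j

theorem pow_back (c : Equiv.Perm I) (j : ℕ) (i : I) : ∃ k, ∀ l : I, (c ^ k) ((c ^ j) l) = l := by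
  refine ⟨orderOf c * (j + 1) - j, fun l => ?_⟩
  have h1 : j ≤ orderOf c * (j + 1) := by
    have := orderOf_pos c
    nlinarith
  rw [← Equiv.Perm.mul_apply, ← pow_add, Nat.sub_add_cancel h1, pow_mul, pow_orderOf_eq_one,
    one_pow]
  rfl

end trans

/-- The transitive case. -/
theorem main_trans (hcyv : CyvStmt) (hnie : NieStmt) (hswa : SwaStmt) (hfbk : FbkStmt)
    (hiso : IsoStmt) {ℓ : ℕ} [Fact ℓ.Prime] {F : Type} [Field F]
    (hF : GoodF ℓ F) {Y : Type} [Group Y] [Finite Y] {I : Type} [Finite I] {K : I → Subgroup Y}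
    {f : Y → F} (hf : IsBlk f) {α β : MulAut Y} {a b : Equiv.Perm I}
    (hc : ∀ i j, i ≠ j → ∀ x ∈ K i, ∀ y ∈ K j, x * y = y * x)
    (ht : (⨆ i, K i) = ⊤) (hz : ¬ ℓ ∣ Nat.card (Subgroup.center Y))
    (ha : ∀ i, (K i).map α.toMonoidHom = K (a i)) (hb : ∀ i, (K i).map β.toMonoidHom = K (b i))
    (hab : a * b = b * a) {i : I} {f₁ : K i → F} (h₁ : BlkU (K i) f f₁)
    (hv : ∀ p q k : ℕ, 0 < p → 0 < q → (a ^ p) i = i → (b ^ q * a ^ k) i = i →
      ∀ α₁ β₁ : MulAut (K i), ResA (K i) (α ^ p) α₁ → ResA (K i) (β ^ q * α ^ k) β₁ →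
        Van ℓ f₁ α₁ β₁)
    (htr : ∀ j, ∃ x y : ℕ, (a ^ x) ((b ^ y) i) = j) : Van ℓ f α β := by
  classical
  -- the period of `a`
  have hp := exists_pow_fix a i
  obtain ⟨p₀, hp₀, hp₁, hp₂⟩ : ∃ p₀, 0 < p₀ ∧ (a ^ p₀) i = i ∧
      ∀ t, 0 < t → t < p₀ → (a ^ t) i ≠ i :=
    ⟨Nat.find hp, (Nat.find_spec hp).1, (Nat.find_spec hp).2,
      fun t h0 h1 h2 => Nat.find_min hp h1 ⟨h0, h2⟩⟩
  have hpm : ∀ x : ℕ, (a ^ x) i = (a ^ (x % p₀)) i := by
    intro x
    conv_lhs => rw [← Nat.mod_add_div x p₀, pow_add, pow_mul]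
    rw [Equiv.Perm.mul_apply]
    congr 1
    exact Function.IsFixedPt.perm_pow hp₁ _
  obtain ⟨S, hS⟩ : ∃ S : Set I, S = {j | ∃ x : ℕ, (a ^ x) i = j} := ⟨_, rfl⟩
  have hmem : ∀ j, j ∈ S ↔ ∃ x : ℕ, (a ^ x) i = j := by intro j; rw [hS]; rfl
  have hiS : i ∈ S := (hmem i).2 ⟨0, rfl⟩
  -- the period of `b`
  have hq : ∃ n, 0 < n ∧ (b ^ n) i ∈ S := by
    obtain ⟨n, hn, hn2⟩ := exists_pow_fix b i
    exact ⟨n, hn, by rw [hn2]; exact hiS⟩
  obtain ⟨q, hq₀, hq₁, hq₂⟩ : ∃ q, 0 < q ∧ (b ^ q) i ∈ S ∧ ∀ t, 0 < t → t < q → (b ^ t) i ∉ S :=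
    ⟨Nat.find hq, (Nat.find_spec hq).1, (Nat.find_spec hq).2,
      fun t h0 h1 h2 => Nat.find_min hq h1 ⟨h0, h2⟩⟩
  obtain ⟨j₀, hj₀⟩ := (hmem _).1 hq₁
  obtain ⟨k, hk⟩ := pow_back a j₀ i
  have hki : (b ^ q) ((a ^ k) i) = i := by
    rw [← pow_apply_comm hab, ← hj₀, hk]
  have hks : ∀ x : ℕ, (b ^ q) ((a ^ k) ((a ^ x) i)) = (a ^ x) i := by
    intro x
    have e : (a ^ k) ((a ^ x) i) = (a ^ x) ((a ^ k) i) := by
      rw [← Equiv.Perm.mul_apply, ← Equiv.Perm.mul_apply, ← pow_add, ← pow_add, add_comm]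
    rw [e, ← pow_apply_comm hab, hki]
  -- images of S
  have haS : a '' S = S := by
    apply Set.Subset.antisymm
    · rintro _ ⟨j, hj, rfl⟩
      obtain ⟨x, rfl⟩ := (hmem j).1 hj
      exact (hmem _).2 ⟨x + 1, by rw [pow_succ']; rfl⟩
    · intro j hj
      obtain ⟨x, rfl⟩ := (hmem j).1 hj
      refine ⟨(a ^ (x + p₀ - 1)) i, (hmem _).2 ⟨_, rfl⟩, ?_⟩
      rw [← Equiv.Perm.mul_apply, ← pow_succ', show x + p₀ - 1 + 1 = x + p₀ by omega, pow_add,
        Equiv.Perm.mul_apply, hp₁]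
  have hbqS : ((b ^ q : Equiv.Perm I) : I → I) '' S = S := by
    apply Set.Subset.antisymm
    · rintro _ ⟨j, hj, rfl⟩
      obtain ⟨x, rfl⟩ := (hmem j).1 hj
      rw [← pow_apply_comm hab, ← hj₀]
      exact (hmem _).2 ⟨x + j₀, by rw [pow_add]; rfl⟩
    · intro j hj
      obtain ⟨x, rfl⟩ := (hmem j).1 hj
      exact ⟨(a ^ k) ((a ^ x) i), (hmem _).2 ⟨k + x, by rw [pow_add]; rfl⟩, hks x⟩
  have hβp : ∀ (t : ℕ) (T : Set I), (YT K T).map (β ^ t).toMonoidHom =
      YT K (((b ^ t : Equiv.Perm I) : I → I) '' T) :=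
    fun t T => YT_map (fun i => map_pow_aut hb t i) T
  have hSα : (YT K S).map α.toMonoidHom = YT K S := by rw [YT_map ha, haS]
  have hSβ : (YT K S).map (β ^ q).toMonoidHom = YT K S := by rw [hβp, hbqS]
  obtain ⟨αS, hαS⟩ := exists_res hSα
  obtain ⟨βS, hβS⟩ := exists_res hSβ
  have hcS : ∀ x ∈ YT K S, ∀ y ∈ YT K Sᶜ, x * y = y * x := YT_comm hc disjoint_compl_right
  have htS := YT_compl ht S
  obtain ⟨⟨fS, hfS⟩, _, _⟩ := hfbk ℓ F hF Y (YT K S) (YT K Sᶜ) hcS htS hz f hf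
  have hq1 : q - 1 + 1 = q := by omega
  refine hcyv ℓ F hF Y (YT K S) f α β (q - 1) αS βS ?_ ?_ hz ?_ hαS (by rw [hq1]; exact hβS)
    fS hfS ?_
  · -- commuting bunches
    intro t ht0 ht1 x hx y hy
    have hdis : Disjoint S (((b ^ t : Equiv.Perm I) : I → I) '' S) := by
      rw [Set.disjoint_left]
      rintro j hj ⟨j', hj', hjj⟩
      obtain ⟨x, rfl⟩ := (hmem j).1 hj
      obtain ⟨y, rfl⟩ := (hmem j').1 hj'
      apply hq₂ t ht0 (by omega)
      obtain ⟨z, hz'⟩ := pow_back a y i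
      have e : (b ^ t) i = (a ^ z) ((a ^ x) i) := by
        rw [← hjj, pow_apply_comm hab, hz']
      rw [e]
      exact (hmem _).2 ⟨z + x, by rw [pow_add]; rfl⟩
    refine YT_comm hc hdis x hx _ ?_
    rw [← hβp]
    exact mem_map_aut.2 ⟨y, hy, rfl⟩
  · -- they generate
    rw [eq_top_iff, ← ht]
    refine iSup_le fun j => ?_
    obtain ⟨x, y, rfl⟩ := htr j
    have hu : ∀ u : ℕ, ((b ^ q) ^ u) i ∈ S := by
      intro u
      induction u with
      | zero => exact hiS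
      | succ u ih =>
        rw [pow_succ', Equiv.Perm.mul_apply]
        rw [← hbqS]
        exact ⟨_, ih, rfl⟩
    have hy : (b ^ y) i = (b ^ (y % q)) (((b ^ q) ^ (y / q)) i) := by
      conv_lhs => rw [← Nat.mod_add_div y q, pow_add, pow_mul]
      rfl
    have hxS : (a ^ x) (((b ^ q) ^ (y / q)) i) ∈ S := by
      obtain ⟨x', hx'⟩ := (hmem _).1 (hu (y / q))
      rw [← hx']
      exact (hmem _).2 ⟨x + x', by rw [pow_add]; rfl⟩
    have h2 : K ((a ^ x) ((b ^ y) i)) ≤ (YT K S).map (β ^ (y % q)).toMonoidHom := by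
      rw [hβp, hy, pow_apply_comm hab]
      exact le_YT ⟨_, hxS, rfl⟩
    refine h2.trans ?_
    exact le_iSup₂ (f := fun (i : ℕ) (_ : i ∈ Finset.range (q - 1 + 1)) =>
      (YT K S).map (β ^ i).toMonoidHom) (y % q) (by
        rw [Finset.mem_range, hq1]; exact Nat.mod_lt _ hq₀)
  · -- stable under α
    intro t _
    rw [hβp, YT_map ha]
    congr 1
    conv_rhs => rw [← haS]
    rw [Set.image_image, Set.image_image]
    congr 1
    funext j
    have := pow_apply_comm hab 1 t j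
    rw [pow_one] at this
    exact this
  · -- the bunch
    have hKS : K i ≤ YT K S := le_YT hiS
    refine nie_pow hnie hF k ?_
    have hp1 : p₀ - 1 + 1 = p₀ := by omega
    have hαt : ∀ t : ℕ, ((K i).subgroupOf (YT K S)).map (αS ^ t).toMonoidHom =
        (K ((a ^ t) i)).subgroupOf (YT K S) :=
      fun t => map_subgroupOf (res_pow hαS t) hKS (map_pow_aut ha t i)
    have hB' : ResA (YT K S) (β ^ q * α ^ k) (βS * αS ^ k) := res_mul hβS (res_pow hαS k)
    have hβt : ∀ t : ℕ, ((K ((a ^ t) i)).subgroupOf (YT K S)).map (βS * αS ^ k).toMonoidHom =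
        (K ((a ^ t) i)).subgroupOf (YT K S) := by
      intro t
      refine map_subgroupOf hB' (le_YT ((hmem _).2 ⟨t, rfl⟩)) ?_
      rw [map_mul_aut, map_pow_aut ha, map_pow_aut hb, hks]
    obtain ⟨α₂, hα₂⟩ : ∃ α₂, ResA ((K i).subgroupOf (YT K S)) (αS ^ p₀) α₂ := by
      apply exists_res
      rw [hαt, hp₁]
    obtain ⟨β₂, hβ₂⟩ : ∃ β₂, ResA ((K i).subgroupOf (YT K S)) (βS * αS ^ k) β₂ := by
      apply exists_res
      exact hβt 0
    have hsup := iSup_subgroupOf (K := K) (T := S)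
    refine main_orbit hcyv hswa hF (K₀ := (K i).subgroupOf (YT K S)) (p := p₀ - 1) (α₁ := α₂)
      (β₁ := β₂) ?_ ?_ (center_dvd hcS htS hz) ?_ (by rw [hp1]; exact hα₂) hβ₂
      (blk_down hKS (C := (YT K (S \ {i})).subgroupOf (YT K S)) ?_ ?_ hf.2.1 hfS h₁)
      (van_down hiso hKS (res_pow hαS p₀) hB' (hv p₀ q k hp₀ hq₀ hp₁ hki) α₂ β₂ hα₂ hβ₂)
    · intro t ht0 ht1 x hx y hy
      apply Subtype.ext
      show (x : Y) * (((αS ^ t) y : YT K S) : Y) = (((αS ^ t) y : YT K S) : Y) * (x : Y)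
      rw [res_pow hαS t]
      refine hc i ((a ^ t) i) (fun h => hp₂ t ht0 (by omega) h.symm) _ hx _ ?_
      rw [← map_pow_aut ha]
      exact mem_map_aut.2 ⟨y, hy, rfl⟩
    · rw [eq_top_iff, ← hsup]
      refine iSup_le ?_
      rintro ⟨j, hj⟩
      obtain ⟨x, rfl⟩ := (hmem j).1 hj
      show (K ((a ^ x) i)).subgroupOf (YT K S) ≤ _
      rw [hpm x, ← hαt]
      exact le_iSup₂ (f := fun (t : ℕ) (_ : t ∈ Finset.range (p₀ - 1 + 1)) =>
        ((K i).subgroupOf (YT K S)).map (αS ^ t).toMonoidHom) (x % p₀) (by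
          rw [Finset.mem_range, hp1]; exact Nat.mod_lt _ hp₀)
    · intro t _
      rw [hαt, hβt]
    · intro x hx y hy
      apply Subtype.ext
      have : K i ≤ YT K {i} := le_YT rfl
      exact YT_comm hc (T := {i}) (T' := S \ {i}) Set.disjoint_sdiff_right x (this hx) y hy
    · rw [eq_top_iff, ← hsup]
      refine iSup_le ?_
      rintro ⟨j, hj⟩
      by_cases hji : j = i
      · subst hji
        exact le_sup_left
      · refine le_trans ?_ le_sup_right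
        have : K j ≤ YT K (S \ {i}) := le_YT ⟨hj, hji⟩
        exact fun x hx => this hx

/-- ORV. -/
theorem orv (hprv : PrvStmt) (hcyv : CyvStmt) (hnie : NieStmt) (hswa : SwaStmt)
    (hfbk : FbkStmt) (hiso : IsoStmt) : OrvStmt := by
  intro ℓ _ F _ hF Y _ _ I _ K f α β a b hc ht hz ha hb hab i f₁ h₁ hv τ hτ w wi hT
  have hf := hT.blk
  obtain ⟨O, hO⟩ : ∃ O : Set I, O = {j | ∃ x y : ℕ, (a ^ x) ((b ^ y) i) = j} := ⟨_, rfl⟩
  have hmem : ∀ j, j ∈ O ↔ ∃ x y : ℕ, (a ^ x) ((b ^ y) i) = j := by intro j; rw [hO]; rfl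
  have hiO : i ∈ O := (hmem i).2 ⟨0, 0, rfl⟩
  have haO : ∀ j, a j ∈ O ↔ j ∈ O := by
    intro j
    constructor
    · intro h
      obtain ⟨x, y, hxy⟩ := (hmem _).1 h
      obtain ⟨z, hz'⟩ := pow_back a 1 j
      have e : j = (a ^ z) (a j) := by
        have := hz' j
        rw [pow_one] at this
        exact this.symm
      rw [e, ← hxy]
      exact (hmem _).2 ⟨z + x, y, by rw [pow_add]; rfl⟩
    · intro h
      obtain ⟨x, y, rfl⟩ := (hmem _).1 h
      exact (hmem _).2 ⟨x + 1, y, by rw [pow_succ']; rfl⟩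
  have hbO : ∀ j, b j ∈ O ↔ j ∈ O := by
    intro j
    constructor
    · intro h
      obtain ⟨x, y, hxy⟩ := (hmem _).1 h
      obtain ⟨z, hz'⟩ := pow_back b 1 j
      have e : j = (b ^ z) (b j) := by
        have := hz' j
        rw [pow_one] at this
        exact this.symm
      rw [e, ← hxy]
      exact (hmem _).2 ⟨x, z + y, by rw [← pow_apply_comm hab, pow_add b]; rfl⟩
    · intro h
      obtain ⟨x, y, rfl⟩ := (hmem _).1 h
      refine (hmem _).2 ⟨x, y + 1, ?_⟩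
      rw [pow_succ' b, Equiv.Perm.mul_apply]
      have := pow_apply_comm hab x 1 ((b ^ y) i)
      rw [pow_one] at this
      exact this
  have himg : ∀ (c : Equiv.Perm I), (∀ j, c j ∈ O ↔ j ∈ O) → c '' O = O ∧ c '' Oᶜ = Oᶜ := by
    intro c hc'
    have h1 : c '' O = O := by
      ext j
      constructor
      · rintro ⟨j', hj', rfl⟩
        exact (hc' j').2 hj'
      · intro hj
        refine ⟨c.symm j, ?_, c.apply_symm_apply j⟩
        rw [← hc', c.apply_symm_apply]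
        exact hj
    refine ⟨h1, ?_⟩
    rw [Set.image_compl_eq c.bijective, h1]
  have hcO : ∀ x ∈ YT K O, ∀ y ∈ YT K Oᶜ, x * y = y * x := YT_comm hc disjoint_compl_right
  have htO := YT_compl ht O
  obtain ⟨⟨fO, hfO⟩, _, _⟩ := hfbk ℓ F hF Y (YT K O) (YT K Oᶜ) hcO htO hz f hf
  have hOα : (YT K O).map α.toMonoidHom = YT K O := by rw [YT_map ha, (himg a haO).1]
  have hOβ : (YT K O).map β.toMonoidHom = YT K O := by rw [YT_map hb, (himg b hbO).1]
  obtain ⟨αO, hαO⟩ := exists_res hOα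
  obtain ⟨βO, hβO⟩ := exists_res hOβ
  have hsup := iSup_subgroupOf (K := K) (T := O)
  have hKO : K i ≤ YT K O := le_YT hiO
  have hapow : ∀ (n : ℕ) (j : O), (((a.subtypePerm haO) ^ n) j : I) = (a ^ n) (j : I) := by
    intro n
    induction n with
    | zero => intro j; rfl
    | succ n ih =>
      intro j
      rw [pow_succ', pow_succ', Equiv.Perm.mul_apply, Equiv.Perm.mul_apply, ← ih]
      rfl
  have hbpow : ∀ (n : ℕ) (j : O), (((b.subtypePerm hbO) ^ n) j : I) = (b ^ n) (j : I) := by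
    intro n
    induction n with
    | zero => intro j; rfl
    | succ n ih =>
      intro j
      rw [pow_succ', pow_succ', Equiv.Perm.mul_apply, Equiv.Perm.mul_apply, ← ih]
      rfl
  have hvO : Van ℓ fO αO βO := by
    refine main_trans hcyv hnie hswa hfbk hiso hF (K := fun j : O => (K j).subgroupOf (YT K O))
      hfO.1 (a := a.subtypePerm haO) (b := b.subtypePerm hbO) (i := ⟨i, hiO⟩) ?_ hsup
      (center_dvd hcO htO hz) ?_ ?_ ?_
      (blk_down hKO (C := (YT K (O \ {i})).subgroupOf (YT K O)) ?_ ?_ hf.2.1 hfO h₁) ?_ ?_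
    · intro j j' hjj x hx y hy
      apply Subtype.ext
      exact hc j j' (fun h => hjj (Subtype.ext h)) x hx y hy
    · intro j
      exact map_subgroupOf hαO (le_YT j.2) (ha j)
    · intro j
      exact map_subgroupOf hβO (le_YT j.2) (hb j)
    · ext j
      show a (b (j : I)) = b (a (j : I))
      exact congrFun (congrArg (fun f : Equiv.Perm I => (f : I → I)) hab) j
    · intro x hx y hy
      apply Subtype.ext
      have : K i ≤ YT K {i} := le_YT rfl
      exact YT_comm hc (T := {i}) (T' := O \ {i}) Set.disjoint_sdiff_right x (this hx) y hy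
    · rw [eq_top_iff, ← hsup]
      refine iSup_le ?_
      rintro ⟨j, hj⟩
      by_cases hji : j = i
      · subst hji
        exact le_sup_left
      · refine le_trans ?_ le_sup_right
        have : K j ≤ YT K (O \ {i}) := le_YT ⟨hj, hji⟩
        exact fun x hx => this hx
    · intro p q k hp hq h3 h4 α₂ β₂ hα₂ hβ₂
      have h5 : (a ^ p) i = i := by
        have := congrArg Subtype.val h3
        rwa [hapow] at this
      have h6 : (b ^ q * a ^ k) i = i := by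
        have := congrArg Subtype.val h4
        rw [Equiv.Perm.mul_apply, hbpow, hapow] at this
        exact this
      exact van_down hiso hKO (res_pow hαO p) (res_mul (res_pow hβO q) (res_pow hαO k))
        (hv p q k hp hq h5 h6) α₂ β₂ hα₂ hβ₂
    · rintro ⟨j, hj⟩
      obtain ⟨x, y, hxy⟩ := (hmem j).1 hj
      refine ⟨x, y, ?_⟩
      apply Subtype.ext
      rw [hapow, hbpow]
      exact hxy
  exact hprv ℓ F hF Y (YT K O) (YT K Oᶜ) hcO htO hz f α β αO βO hαO hβO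
    (by rw [YT_map ha, (himg a haO).2]) (by rw [YT_map hb, (himg b hbO).2]) fO hfO hvO τ hτ w wi hT

end Pool.Agent.PP.H60
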