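import Pool.Agent.Helper60_PP.OrvA

/-!
Squad PP, part R2, module ORV: families of commuting subgroups.
-/

open scoped BigOperators

noncomputable section

namespace Pool.Agent.PP.H60

open Pool.Agent.Helper51_AWC Pool.Agent.Helper79_WRA Pool.Agent.PP

variable {Y : Type} [Group Y] {I : Type} {K : I → Subgroup Y}

/-- the subgroup generated by the `K j`, `j ∈ T` -/
def YT (K : I → Subgroup Y) (T : Set I) : Subgroup Y := ⨆ j : T, K j

theorem le_YT {T : Set I} {j : I} (hj : j ∈ T) : K j ≤ YT K T := by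
  unfold YT
  exact le_iSup (fun j : T => K j) ⟨j, hj⟩

theorem YT_le {T : Set I} {H : Subgroup Y} (h : ∀ j ∈ T, K j ≤ H) : YT K T ≤ H := by
  unfold YT
  exact iSup_le fun j => h j j.2

theorem YT_mono {T T' : Set I} (h : T ⊆ T') : YT K T ≤ YT K T' :=
  YT_le fun _ hj => le_YT (h hj)

theorem YT_map {γ : MulAut Y} {c : I → I} (h : ∀ i, (K i).map γ.toMonoidHom = K (c i))
    (T : Set I) : (YT K T).map γ.toMonoidHom = YT K (c '' T) := by
  unfold YT
  rw [Subgroup.map_iSup]
  apply le_antisymm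
  · refine iSup_le fun j => ?_
    rw [h]
    exact le_iSup (fun j : (c '' T : Set I) => K j) ⟨c j, j, j.2, rfl⟩
  · refine iSup_le ?_
    rintro ⟨_, j, hj, rfl⟩
    rw [← h]
    exact le_iSup (fun j : T => (K j).map γ.toMonoidHom) ⟨j, hj⟩

theorem YT_comm (hc : ∀ i j, i ≠ j → ∀ x ∈ K i, ∀ y ∈ K j, x * y = y * x) {T T' : Set I}
    (h : Disjoint T T') : ∀ x ∈ YT K T, ∀ y ∈ YT K T', x * y = y * x := by
  have h1 : YT K T ≤ Subgroup.centralizer (YT K T' : Set Y) := by
    refine YT_le fun i hi => ?_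
    rw [Subgroup.le_centralizer_iff]
    refine YT_le fun j hj => ?_
    intro y hy
    rw [Subgroup.mem_centralizer_iff]
    intro x hx
    refine hc i j ?_ x hx y hy
    rintro rfl
    exact Set.disjoint_left.1 h hi hj
  intro x hx y hy
  have := h1 hx
  rw [Subgroup.mem_centralizer_iff] at this
  exact (this y hy).symm

theorem YT_compl (ht : (⨆ i, K i) = ⊤) (T : Set I) : YT K T ⊔ YT K Tᶜ = ⊤ := by
  rw [eq_top_iff, ← ht]
  refine iSup_le fun i => ?_
  by_cases hi : i ∈ T
  · exact (le_YT hi).trans le_sup_left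
  · exact (le_YT (T := Tᶜ) hi).trans le_sup_right

/-- the centre of a factor -/
theorem center_le {H C : Subgroup Y} (hc : ∀ x ∈ H, ∀ y ∈ C, x * y = y * x) (ht : H ⊔ C = ⊤) :
    (Subgroup.center H).map H.subtype ≤ Subgroup.center Y := by
  rintro _ ⟨z, hz, rfl⟩
  rw [SetLike.mem_coe, Subgroup.mem_center_iff] at hz
  have h1 : H ≤ Subgroup.centralizer {(z : Y)} := by
    intro x hx
    rw [Subgroup.mem_centralizer_iff]
    rintro _ rfl
    have := congrArg (Subtype.val) (hz ⟨x, hx⟩)
    exact this.symm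
  have h2 : C ≤ Subgroup.centralizer {(z : Y)} := by
    intro x hx
    rw [Subgroup.mem_centralizer_iff]
    rintro _ rfl
    exact hc z z.2 x hx
  rw [Subgroup.mem_center_iff]
  intro g
  have h3 : g ∈ Subgroup.centralizer {(z : Y)} := by
    have : H ⊔ C ≤ Subgroup.centralizer {(z : Y)} := sup_le h1 h2
    rw [ht] at this
    exact this trivial
  rw [Subgroup.mem_centralizer_iff] at h3
  exact (h3 _ rfl).symm

theorem center_dvd [Finite Y] {ℓ : ℕ} {H C : Subgroup Y} (hc : ∀ x ∈ H, ∀ y ∈ C, x * y = y * x)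
    (ht : H ⊔ C = ⊤) (h : ¬ ℓ ∣ Nat.card (Subgroup.center Y)) :
    ¬ ℓ ∣ Nat.card (Subgroup.center H) := by
  intro h1
  apply h
  have h2 : Nat.card ((Subgroup.center H).map H.subtype : Subgroup Y) = Nat.card (Subgroup.center H) :=
    Subgroup.card_map_of_injective H.subtype_injective
  rw [← h2] at h1
  exact h1.trans (Subgroup.card_dvd_of_le (center_le hc ht))

/-- the subgroups `K j` inside the subgroup generated by some of them -/
theorem iSup_subgroupOf {T : Set I} :
    (⨆ j : T, (K j).subgroupOf (YT K T)) = ⊤ := by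
  apply Subgroup.map_injective (YT K T).subtype_injective
  rw [Subgroup.map_iSup, ← MonoidHom.range_eq_map, Subgroup.range_subtype]
  have : ∀ j : T, ((K j).subgroupOf (YT K T)).map (YT K T).subtype = K j :=
    fun j => Subgroup.map_subgroupOf_eq_of_le (le_YT j.2)
  simp only [this]
  rfl

end Pool.Agent.PP.H60
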